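import Mathlib

set_option autoImplicit false

/-!
# Groups of small even order without subgroups of index two (MP_bf82d2_ag, project OR)

A group of even order at most `30` without a subgroup of index `2` has order `12` or `24`.
-/

namespace Pool.Agent.H81.OR

/-- A normal subgroup whose index is a power of `2` gives a subgroup of index `2`. -/
theorem exists_index_two {G : Type} [Group G] [Finite G] (N : Subgroup G) [N.Normal] {k : ℕ}
    (h : N.index = 2 ^ (k + 1)) : ∃ H : Subgroup G, H.index = 2 := by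
  have : Fact (Nat.Prime 2) := ⟨Nat.prime_two⟩
  have hc : Nat.card (G ⧸ N) = 2 ^ (k + 1) := h
  obtain ⟨K, hK⟩ := Sylow.exists_subgroup_card_pow_prime (G := G ⧸ N) 2 (n := k)
    (by rw [hc]; exact pow_dvd_pow 2 (Nat.le_succ k))
  refine ⟨K.comap (QuotientGroup.mk' N), ?_⟩
  rw [Subgroup.index_comap_of_surjective _ (QuotientGroup.mk'_surjective N)]
  have h1 := K.card_mul_index
  rw [hK, hc, pow_succ] at h1
  exact Nat.eq_of_mul_eq_mul_left (by positivity) h1

/-- A group of order `2` modulo `4` has a subgroup of index `2`. -/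
theorem two_mod_four {G : Type} [Group G] [Finite G] (h : Nat.card G % 4 = 2) :
    ∃ H : Subgroup G, H.index = 2 := by
  have : Fact (Nat.Prime 2) := ⟨Nat.prime_two⟩
  have hm : (Nat.card G).minFac = 2 := by
    rw [Nat.minFac_eq_two_iff]; omega
  have hf : (Nat.card G).factorization 2 = 1 := by
    obtain ⟨m, hm⟩ : 2 ∣ Nat.card G := by omega
    have hm2 : ¬ 2 ∣ m := by omega
    have hm0 : m ≠ 0 := by omega
    rw [hm, Nat.factorization_mul (by norm_num) hm0, Finsupp.add_apply,
      Nat.Prime.factorization_self Nat.prime_two, Nat.factorization_eq_zero_of_not_dvd hm2]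
  obtain ⟨P⟩ : Nonempty (Sylow 2 G) := inferInstance
  have hP : Nat.card P = 2 := by rw [P.card_eq_multiplicity, hf, pow_one]
  have hcyc : IsCyclic P := isCyclic_of_prime_card hP
  have hcompl := IsCyclic.isComplement' hm hcyc
  exact ⟨_, hcompl.symm.index_eq_card.trans hP⟩

/-- A group of order `4 p` in which the number of Sylow `p`-subgroups must be one has a subgroup of
index `2`. -/
theorem four_mul {G : Type} [Group G] [Finite G] {p : ℕ} (hp : p.Prime) (hc : Nat.card G = 4 * p)
    (h : ∀ k, k ∣ 4 * p → k % p = 1 → k = 1) (hp2 : ¬ 2 ∣ p) : ∃ H : Subgroup G, H.index = 2 := by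
  have : Fact p.Prime := ⟨hp⟩
  have hp4 : ¬ p ∣ 4 := by
    intro h4
    have h5 : p ∣ 2 ^ 2 := by norm_num; exact h4
    have h6 := hp.dvd_of_dvd_pow h5
    have h7 := (Nat.prime_dvd_prime_iff_eq hp Nat.prime_two).1 h6
    exact hp2 (by rw [h7])
  have hf : (Nat.card G).factorization p = 1 := by
    rw [hc, Nat.factorization_mul (by norm_num) hp.ne_zero, Finsupp.add_apply,
      Nat.Prime.factorization_self hp, Nat.factorization_eq_zero_of_not_dvd hp4]
  obtain ⟨P⟩ : Nonempty (Sylow p G) := inferInstance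
  have hP : Nat.card P = p := by rw [P.card_eq_multiplicity, hf, pow_one]
  have h1 := h (Nat.card (Sylow p G))
    (by rw [← hc]; exact P.card_dvd_index.trans (Subgroup.index_dvd_card _)) (by
      have h2 : Nat.card (Sylow p G) % p = 1 % p := card_sylow_modEq_one p G
      rw [h2, Nat.mod_eq_of_lt hp.one_lt])
  have : Subsingleton (Sylow p G) := (Nat.card_eq_one_iff_unique.1 h1).1
  have : (P : Subgroup G).Normal := P.normal_of_subsingleton
  refine exists_index_two (P : Subgroup G) (k := 1) ?_
  have h3 := (P : Subgroup G).card_mul_index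
  have h4 : Nat.card (P : Subgroup G) = p := hP
  rw [h4, hc, mul_comm 4 p] at h3
  exact Nat.eq_of_mul_eq_mul_left hp.pos h3

theorem bot_case {G : Type} [Group G] [Finite G] {k : ℕ} (hc : Nat.card G = 2 ^ (k + 1)) :
    ∃ H : Subgroup G, H.index = 2 :=
  exists_index_two (⊥ : Subgroup G) (k := k) (by rw [Subgroup.index_bot, hc])

theorem even_cases {G : Type} [Group G] [Fintype G] (heven : Even (Nat.card G))
    (h30 : Nat.card G ≤ 30) (h2 : ∀ H : Subgroup G, H.index ≠ 2)
    (_hna : ∃ a b : G, a * b ≠ b * a) : Nat.card G = 12 ∨ Nat.card G = 24 := by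
  have hno : ¬ ∃ H : Subgroup G, H.index = 2 := fun ⟨H, hH⟩ => h2 H hH
  have hpos : 0 < Nat.card G := Nat.card_pos
  have he : Nat.card G % 2 = 0 := Nat.even_iff.1 heven
  have h4 : Nat.card G % 4 ≠ 2 := fun h => hno (two_mod_four h)
  have h8 : Nat.card G ≠ 2 ^ (1 + 1) := fun h => hno (bot_case h)
  have h9 : Nat.card G ≠ 2 ^ (2 + 1) := fun h => hno (bot_case h)
  have h16 : Nat.card G ≠ 2 ^ (3 + 1) := fun h => hno (bot_case h)
  have h20 : Nat.card G ≠ 4 * 5 := fun h => hno (four_mul (by norm_num) h (by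
    intro k hk hk1
    have : k ≤ 20 := Nat.le_of_dvd (by norm_num) hk
    interval_cases k <;> omega) (by norm_num))
  have h28 : Nat.card G ≠ 4 * 7 := fun h => hno (four_mul (by norm_num) h (by
    intro k hk hk1
    have : k ≤ 28 := Nat.le_of_dvd (by norm_num) hk
    interval_cases k <;> omega) (by norm_num))
  omega

end Pool.Agent.H81.OR
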